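import Mathlib
import Pool.Agent.H1.BT.Defs
import Pool.Agent.H1.BT.Proof

/-!
`MP_74be22_co`: Q1 and Q2 both have the answer no (already with `c₁ = 1/4`, `c₂ = 1`).
-/

namespace Pool.Agent.Results.MP_74be22_co.NoTransversal

open Pool.Agent.H1.BT

theorem result : ¬ Q1Statement ∧ ¬ Q2Statement := ⟨main1, main2⟩

end Pool.Agent.Results.MP_74be22_co.NoTransversal
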